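import Mathlib
import Pool.Agent.U358.ZG.Main

/-!
# The least number of subset sums of a generating set without zero

For every finite abelian group `G` and every `m` let `W(G, m)` be the least of `|G|` and of the
numbers `|H| 2^(s-1) (max(s, m+1-|H|) - s + 2)`, `H` a proper subgroup with `2|H| > m` and `s` the
minimal number of generators of `G/H`. For every `ε > 0` and all `m` large in terms of `ε` only, the
least number of subset sums of an `m`-element generating set of `G` which avoids `0` is `W(G, m)`,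
provided that `m² ≥ (25/4 + ε) |G|` or that `W(G, m) ≤ (4/25 - ε) m²`.
-/

set_option autoImplicit false

namespace Pool.Agent.Results.MP_ec93d3_co.LargeRange

open Pool.Agent.U358.ZG

/-- The set of all sums of the subsets of `A`, the empty sum included. -/
def SubsetSums {G : Type} [AddCommGroup G] (A : Finset G) : Set G :=
  {s | ∃ B : Finset G, B ⊆ A ∧ ∑ b ∈ B, b = s}

/-- The values of `|Σ A|`, as `A` runs over the `m`-element generating sets of `G` that do not
contain `0`. Its least element is the number asked for. -/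
def values (G : Type) [AddCommGroup G] (m : ℕ) : Set ℕ :=
  {k | ∃ A : Finset G, A.card = m ∧ (0 : G) ∉ A ∧ AddSubgroup.closure (A : Set G) = ⊤ ∧
    (SubsetSums A).ncard = k}

/-- The number attached to a proper subgroup `H`: with `s` the minimal number of generators of
`G/H` and `r = max(s, m + 1 - |H|)` it is `|H| 2^(s-1) (r - s + 2)`. -/
noncomputable def subgroupValue (G : Type) [AddCommGroup G] [Finite G] (m : ℕ)
    (H : AddSubgroup G) : ℕ :=
  Nat.card H * 2 ^ (AddGroup.rank (G ⧸ H) - 1) *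
    (max (AddGroup.rank (G ⧸ H)) (m + 1 - Nat.card H) - AddGroup.rank (G ⧸ H) + 2)

/-- `W(G, m)`: the least of `|G|` and of the numbers attached to the proper subgroups `H` with
`2|H| > m`. -/
noncomputable def W (G : Type) [AddCommGroup G] [Finite G] (m : ℕ) : ℕ :=
  sInf {v | v = Nat.card G ∨
    ∃ H : AddSubgroup G, H ≠ ⊤ ∧ m < 2 * Nat.card H ∧ v = subgroupValue G m H}

theorem sums_eq {G : Type} [AddCommGroup G] [DecidableEq G] (A : Finset G) :
    (SubsetSums A).ncard = A.subsetSum.card := by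
  rw [← Set.ncard_coe_finset]
  congr 1
  ext s
  rw [Finset.mem_coe, Finset.mem_subsetSum_iff]
  rfl

theorem sq_lt (m : ℕ) : 4 * m ^ 2 < 25 * 2 ^ m := by
  induction m using Nat.strong_induction_on with
  | _ m ih =>
    rcases Nat.lt_or_ge m 4 with h | h
    · interval_cases m <;> norm_num
    · obtain ⟨k, rfl⟩ : ∃ k, m = k + 1 := ⟨m - 1, by omega⟩
      have h1 := ih k (by omega)
      have h2 : (k + 1) ^ 2 ≤ 2 * k ^ 2 := by
        obtain ⟨j, rfl⟩ : ∃ j, k = j + 3 := ⟨k - 3, by omega⟩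
        nlinarith
      rw [pow_succ 2 k]
      omega

theorem main (ε : ℝ) (hε : 0 < ε) : ∃ M : ℕ, ∀ (G : Type) [AddCommGroup G] [Finite G] (m : ℕ),
    M ≤ m → m < Nat.card G → (W G m : ℝ) ≤ (4 / 25 - ε) * (m : ℝ) ^ 2 →
      IsLeast (values G m) (W G m) := by
  classical
  obtain ⟨M, hM⟩ := lower ε hε
  refine ⟨M, ?_⟩
  intro G _ _ m hMm hmn hW
  have := Fintype.ofFinite G
  have hne : {v | v = Nat.card G ∨ ∃ H : AddSubgroup G, H ≠ ⊤ ∧ m < 2 * Nat.card H ∧
      v = subgroupValue G m H}.Nonempty := ⟨_, Or.inl rfl⟩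
  have hlow : ∀ k ∈ values G m, W G m ≤ k := by
    rintro k ⟨A, hA1, hA2, hA3, rfl⟩
    rw [sums_eq A]
    rcases hM G m hMm A hA1 hA2 hA3 with h | h | ⟨H, hH1, hH2, hH3⟩
    · have : (W G m : ℝ) ≤ A.subsetSum.card := hW.trans h
      exact_mod_cast this
    · rw [← Nat.card_eq_fintype_card] at h
      exact le_trans (Nat.sInf_le (Or.inl rfl)) h
    · exact le_trans (Nat.sInf_le (Or.inr ⟨H, hH1, hH2, rfl⟩)) hH3
  -- the value is small compared with `2 ^ m`
  have hWm : W G m < 2 ^ m := by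
    have h1 : (W G m : ℝ) ≤ 4 / 25 * (m : ℝ) ^ 2 := by nlinarith [sq_nonneg (m : ℝ)]
    have h2 : ((4 * m ^ 2 : ℕ) : ℝ) < ((25 * 2 ^ m : ℕ) : ℝ) := by exact_mod_cast sq_lt m
    push_cast at h2
    have h3 : (W G m : ℝ) < (2 : ℝ) ^ m := by linarith
    exact_mod_cast h3
  have hup : ∃ k ∈ values G m, k ≤ W G m := by
    rcases Nat.sInf_mem hne with h | ⟨H, hH1, hH2, hH3⟩
    · -- any generating set
      have hWn : W G m = Nat.card G := h
      rw [hWn] at hWm ⊢
      obtain ⟨S, hS1, hS2, hS3⟩ := exists_gens G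
      have h1 : S.card ≤ m := by
        have h2 := two_pow_rank_le G
        rw [hS1]
        exact (Nat.pow_lt_pow_iff_right (by norm_num)).1 (lt_of_le_of_lt h2 hWm) |>.le
      have h2 : S ⊆ Finset.univ.erase 0 := by
        intro x hx
        rw [Finset.mem_erase]
        exact ⟨fun h0 => hS3 (h0 ▸ hx), Finset.mem_univ _⟩
      obtain ⟨A, hA1, hA2, hA3⟩ := Finset.exists_subsuperset_card_eq (n := m) h2 h1 (by
        rw [Finset.card_erase_of_mem (Finset.mem_univ _), Finset.card_univ,
          ← Nat.card_eq_fintype_card]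
        omega)
      refine ⟨_, ⟨A, hA3, fun h0 => (Finset.mem_erase.1 (hA2 h0)).1 rfl, ?_, rfl⟩, ?_⟩
      · rw [eq_top_iff, ← hS2]
        exact AddSubgroup.closure_mono (by exact_mod_cast hA1)
      · rw [sums_eq, Nat.card_eq_fintype_card]
        exact Finset.card_le_univ _
    · have hWn : W G m = term m H := hH3
      rw [hWn] at hWm ⊢
      have hs1 : 1 ≤ AddGroup.rank (G ⧸ H) := by
        have : Nontrivial (G ⧸ H) := by
          rw [← not_subsingleton_iff_nontrivial]
          intro hsub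
          apply hH1
          rw [← AddSubgroup.index_eq_one, AddSubgroup.index_eq_card]
          exact Nat.card_unique
        exact AddGroup.rank_pos _
      have hrk : AddGroup.rank H + AddGroup.rank (G ⧸ H) ≤ m := by
        have h2 := two_pow_rank_le H
        have h3 : 2 ^ (AddGroup.rank H + AddGroup.rank (G ⧸ H)) ≤ term m H := by
          unfold term
          obtain ⟨u, hu⟩ : ∃ u, AddGroup.rank (G ⧸ H) = u + 1 :=
            ⟨AddGroup.rank (G ⧸ H) - 1, by omega⟩
          rw [hu, Nat.add_sub_cancel, pow_add, pow_succ]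
          calc 2 ^ AddGroup.rank H * (2 ^ u * 2) ≤ Nat.card H * (2 ^ u * 2) :=
                Nat.mul_le_mul_right _ h2
            _ = Nat.card H * 2 ^ u * 2 := by ring
            _ ≤ _ := Nat.mul_le_mul_left _ (by omega)
        exact ((Nat.pow_lt_pow_iff_right (by norm_num)).1 (lt_of_le_of_lt h3 hWm)).le
      obtain ⟨A, hA1, hA2, hA3, hA4⟩ := exists_construction m H hH1 hH2 hrk
      exact ⟨_, ⟨A, hA1, hA2, hA3, rfl⟩, by rw [sums_eq]; exact hA4⟩
  obtain ⟨k, hk1, hk2⟩ := hup
  have hk3 : k = W G m := le_antisymm hk2 (hlow k hk1)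
  exact ⟨hk3 ▸ hk1, hlow⟩

/-- **Theorem.** For every `ε > 0` there is `M` such that for every finite abelian group `G` and
every `m` with `M ≤ m ≤ |G| - 1`: if `m² ≥ (25/4 + ε) |G|`, or if `W(G, m) ≤ (4/25 - ε) m²`, then the
least number of subset sums of an `m`-element generating set of `G` that avoids `0` is `W(G, m)`. -/
theorem result (ε : ℝ) (hε : 0 < ε) : ∃ M : ℕ, ∀ (G : Type) [AddCommGroup G] [Finite G] (m : ℕ),
    M ≤ m → m < Nat.card G →
      ((25 / 4 + ε) * (Nat.card G : ℝ) ≤ (m : ℝ) ^ 2 ∨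
        (W G m : ℝ) ≤ (4 / 25 - ε) * (m : ℝ) ^ 2) →
      IsLeast (values G m) (W G m) := by
  obtain ⟨M1, hM1⟩ := main ε hε
  have hδ : (0 : ℝ) < 4 / 25 - 1 / (25 / 4 + ε) := by
    have h1 : 1 / (25 / 4 + ε) < 1 / (25 / 4) :=
      one_div_lt_one_div_of_lt (by norm_num) (by linarith)
    have h2 : (1 : ℝ) / (25 / 4) = 4 / 25 := by norm_num
    linarith
  obtain ⟨M2, hM2⟩ := main (4 / 25 - 1 / (25 / 4 + ε)) hδ
  refine ⟨max M1 M2, ?_⟩
  intro G _ _ m hm hmn h
  rcases h with h | h
  · apply hM2 G m ((le_max_right _ _).trans hm) hmn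
    have h1 : (W G m : ℝ) ≤ Nat.card G := by
      exact_mod_cast Nat.sInf_le (Or.inl rfl)
    have h2 : (4 / 25 - (4 / 25 - 1 / (25 / 4 + ε))) * (m : ℝ) ^ 2 =
        (m : ℝ) ^ 2 / (25 / 4 + ε) := by ring
    rw [h2, le_div_iff₀ (by linarith)]
    have h3 : (W G m : ℝ) * (25 / 4 + ε) ≤ Nat.card G * (25 / 4 + ε) :=
      mul_le_mul_of_nonneg_right h1 (by linarith)
    linarith
  · exact hM1 G m ((le_max_left _ _).trans hm) hmn h

end Pool.Agent.Results.MP_ec93d3_co.LargeRange
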